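import Mathlib
import Pool.Agent.Q181.ExMap.CertA
import Pool.Agent.Q181.ExMap.CertB
import Pool.Agent.Q181.ExMap.CertC

/-!
# Exclusive-copy edge-mapping numbers: `p(8, P₃) ≠ s(8, P₃)` for the path `P₃` with two edges
-/

namespace Pool.Agent.Results.MP_f12eed_co.NotEqual

open Pool.Agent.Q181.ExMap

/-- the edges `e` and `e'` (two-element vertex sets) are disjoint -/
def Disj {V : Type*} (e e' : Sym2 V) : Prop := ∀ v, v ∈ e → v ∉ e'

/-- the copy `G'` (a subgraph of `H`) is `f`-exclusive: `f(e) ∩ V(G') = ∅` for all `e ∈ E(G')` -/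
def Exclusive {V : Type*} {H : SimpleGraph V} (f : H.edgeSet → H.edgeSet) (G' : H.Subgraph) :
    Prop :=
  ∀ e : H.edgeSet, (e : Sym2 V) ∈ G'.edgeSet → ∀ v ∈ (f e : Sym2 V), v ∉ G'.verts

/-- `f` is `G`-blocking on `H`: no subgraph of `H` isomorphic to `G` is `f`-exclusive -/
def Blocking {V W : Type*} (G : SimpleGraph W) (H : SimpleGraph V)
    (f : H.edgeSet → H.edgeSet) : Prop :=
  ∀ G' : H.Subgraph, Nonempty (G ≃g G'.coe) → ¬ Exclusive f G'

/-- the host-graph parameter `s(n, G)` -/
noncomputable def s {W : Type*} (n : ℕ) (G : SimpleGraph W) : ℕ :=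
  sSup {m : ℕ | ∃ (H : SimpleGraph (Fin n)) (f : H.edgeSet → H.edgeSet),
    (∀ e : H.edgeSet, Disj (e : Sym2 (Fin n)) (f e)) ∧ Blocking G H f ∧ H.edgeSet.ncard = m}

/-- the global parameter `p(n, G)` -/
noncomputable def p {W : Type*} (n : ℕ) (G : SimpleGraph W) : ℕ :=
  sSup {m : ℕ | m ≤ n.choose 2 ∧
    ∃ f : (⊤ : SimpleGraph (Fin n)).edgeSet → (⊤ : SimpleGraph (Fin n)).edgeSet,
      m ≤ {e : (⊤ : SimpleGraph (Fin n)).edgeSet | Disj (e : Sym2 (Fin n)) (f e)}.ncard ∧
      Blocking G ⊤ f}

/-! ## the lower bound for the global parameter -/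

/-- the table of the global map -/
def tab : List (Sym2 (Fin 8) × Sym2 (Fin 8)) :=
  [(s(0, 1), s(5, 6)), (s(0, 3), s(1, 6)), (s(0, 6), s(1, 3)), (s(1, 3), s(0, 6)),
   (s(1, 5), s(3, 4)), (s(1, 6), s(2, 5)), (s(2, 4), s(5, 6)), (s(2, 5), s(1, 7)),
   (s(2, 6), s(0, 5)), (s(2, 7), s(4, 6)), (s(3, 6), s(1, 2)), (s(4, 5), s(2, 7)),
   (s(4, 7), s(2, 5)), (s(5, 7), s(1, 2))]

/-- the global map on pairs -/
def g0 (e : Sym2 (Fin 8)) : Sym2 (Fin 8) :=
  match tab.find? (fun q => decide (q.1 = e)) with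
  | some q => q.2
  | none => e

theorem g0_edge : ∀ e : Sym2 (Fin 8), e ∈ (⊤ : SimpleGraph (Fin 8)).edgeSet →
    g0 e ∈ (⊤ : SimpleGraph (Fin 8)).edgeSet := by
  intro e he
  rw [SimpleGraph.edgeSet_top] at he ⊢
  revert e
  decide +kernel

/-- the global map -/
def gm (e : (⊤ : SimpleGraph (Fin 8)).edgeSet) : (⊤ : SimpleGraph (Fin 8)).edgeSet :=
  ⟨g0 e, g0_edge e e.2⟩

theorem g0_block : ∀ a b c : Fin 8, a ≠ b → b ≠ c → a ≠ c →
    (a ∈ g0 s(a, b) ∨ b ∈ g0 s(a, b) ∨ c ∈ g0 s(a, b)) ∨
    (a ∈ g0 s(b, c) ∨ b ∈ g0 s(b, c) ∨ c ∈ g0 s(b, c)) := by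
  decide +kernel

theorem gm_blocking : Blocking (SimpleGraph.pathGraph 3) ⊤ gm := by
  rintro G' ⟨ψ⟩ hex
  have h01 : (SimpleGraph.pathGraph 3).Adj 0 1 := by
    rw [SimpleGraph.pathGraph_adj]; decide
  have h12 : (SimpleGraph.pathGraph 3).Adj 1 2 := by
    rw [SimpleGraph.pathGraph_adj]; decide
  have k01 := ψ.map_adj_iff.mpr h01
  have k12 := ψ.map_adj_iff.mpr h12
  rw [SimpleGraph.Subgraph.coe_adj] at k01 k12
  have n01 : (ψ 0 : Fin 8) ≠ ψ 1 := k01.ne
  have n12 : (ψ 1 : Fin 8) ≠ ψ 2 := k12.ne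
  have n02 : (ψ 0 : Fin 8) ≠ ψ 2 := by
    intro h
    have := ψ.injective (Subtype.ext h)
    exact absurd this (by decide)
  have e1 := hex ⟨s((ψ 0 : Fin 8), (ψ 1 : Fin 8)), G'.edgeSet_subset k01⟩ k01
  have e2 := hex ⟨s((ψ 1 : Fin 8), (ψ 2 : Fin 8)), G'.edgeSet_subset k12⟩ k12
  rcases g0_block _ _ _ n01 n12 n02 with (h | h | h) | (h | h | h)
  · exact e1 _ h (ψ 0).2
  · exact e1 _ h (ψ 1).2
  · exact e1 _ h (ψ 2).2
  · exact e2 _ h (ψ 0).2
  · exact e2 _ h (ψ 1).2
  · exact e2 _ h (ψ 2).2

theorem tab_disj : ∀ e ∈ tab.map Prod.fst, ¬ e.IsDiag ∧ ∀ v, v ∈ e → v ∉ g0 e := by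
  decide +kernel

theorem gm_count : 14 ≤ {e : (⊤ : SimpleGraph (Fin 8)).edgeSet |
    Disj (e : Sym2 (Fin 8)) (gm e)}.ncard := by
  have h1 : (tab.map Prod.fst).toFinset.card = 14 := by decide +kernel
  have h2 : ((↑) '' {e : (⊤ : SimpleGraph (Fin 8)).edgeSet |
    Disj (e : Sym2 (Fin 8)) (gm e)} : Set (Sym2 (Fin 8))).ncard =
    {e : (⊤ : SimpleGraph (Fin 8)).edgeSet | Disj (e : Sym2 (Fin 8)) (gm e)}.ncard :=
    Set.ncard_image_of_injective _ Subtype.val_injective
  rw [← h2, ← h1, ← Set.ncard_coe_finset]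
  refine Set.ncard_le_ncard ?_ (Set.toFinite _)
  intro e he
  have he' : e ∈ tab.map Prod.fst := by simpa using he
  obtain ⟨h3, h4⟩ := tab_disj e he'
  have h5 : e ∈ (⊤ : SimpleGraph (Fin 8)).edgeSet := by
    rw [SimpleGraph.edgeSet_top]; exact h3
  exact ⟨⟨e, h5⟩, h4, rfl⟩

theorem p_ge : 14 ≤ p 8 (SimpleGraph.pathGraph 3) := by
  unfold p
  refine le_csSup ⟨(8 : ℕ).choose 2, fun m hm => hm.1⟩ ⟨by decide, gm, gm_count, gm_blocking⟩

/-! ## the upper bound for the host-graph parameter -/

open Finset in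
theorem exists_order (H : SimpleGraph (Fin 8)) [DecidableRel H.Adj] (v : Fin 8) (D : ℕ)
    (hv : D = H.degree v) (hD7 : D ≤ 7) :
    ∃ τ : ℕ → Fin 8, (∀ i j, i < 8 → j < 8 → τ i = τ j → i = j) ∧
      (∀ i, 1 ≤ i → i ≤ D → H.Adj (τ 0) (τ i)) ∧
      ∀ i, D < i → i < 8 → ¬ H.Adj (τ 0) (τ i) := by
  let L : List (Fin 8) := v :: ((H.neighborFinset v).toList ++
    (univ \ (insert v (H.neighborFinset v))).toList)
  have hLnd : L.Nodup := by
    refine List.nodup_cons.mpr ⟨?_, List.nodup_append.mpr ⟨nodup_toList _, nodup_toList _, ?_⟩⟩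
    · simp
    · intro x hx y hy hxy
      subst hxy
      simp only [mem_toList, mem_sdiff, mem_univ, true_and, mem_insert, not_or] at hx hy
      exact hy.2 hx
  have hmem : ∀ x, x ∈ L := by
    intro x
    by_cases h1 : x = v
    · subst h1; simp [L]
    · by_cases h2 : x ∈ H.neighborFinset v
      · exact List.mem_cons_of_mem _ (List.mem_append_left _ (mem_toList.mpr h2))
      · exact List.mem_cons_of_mem _ (List.mem_append_right _ (mem_toList.mpr (by
          simp only [mem_sdiff, mem_univ, true_and, mem_insert, not_or]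
          exact ⟨h1, h2⟩)))
  have hlen : L.length = 8 := by
    have h1 : L.toFinset = univ := by
      ext x; simp only [List.mem_toFinset, mem_univ, iff_true]; exact hmem x
    have h2 := List.toFinset_card_of_nodup hLnd
    rw [h1, Finset.card_univ, Fintype.card_fin] at h2
    exact h2.symm
  have hnl : (H.neighborFinset v).toList.length = D := by
    rw [length_toList, SimpleGraph.card_neighborFinset_eq_degree, ← hv]
  let τ : ℕ → Fin 8 := fun i => L.getD i v
  have hτinj : ∀ i j, i < 8 → j < 8 → τ i = τ j → i = j := by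
    intro i j hi hj hij
    have h1 : τ i = L[i]'(by omega) := List.getD_eq_getElem _ _ (by omega)
    have h2 : τ j = L[j]'(by omega) := List.getD_eq_getElem _ _ (by omega)
    rw [h1, h2] at hij
    exact (List.Nodup.getElem_inj_iff hLnd).mp hij
  have hτ0 : τ 0 = v := rfl
  have hτN : ∀ i, 1 ≤ i → i ≤ D → H.Adj (τ 0) (τ i) := by
    intro i hi1 hi2
    have h1 : τ i = L[i]'(by omega) := List.getD_eq_getElem _ _ (by omega)
    obtain ⟨j, rfl⟩ : ∃ j, i = j + 1 := ⟨i - 1, by omega⟩
    have h2 : L[j + 1]'(by omega) = (H.neighborFinset v).toList[j]'(by omega) := by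
      simp only [L, List.getElem_cons_succ]
      exact List.getElem_append_left _
    rw [h1, h2, hτ0]
    have h3 := List.getElem_mem (l := (H.neighborFinset v).toList) (n := j) (by omega)
    rw [mem_toList, SimpleGraph.mem_neighborFinset] at h3
    exact h3
  have hτR : ∀ i, D < i → i < 8 → ¬ H.Adj (τ 0) (τ i) := by
    intro i hi1 hi2
    have h1 : τ i = L[i]'(by omega) := List.getD_eq_getElem _ _ (by omega)
    obtain ⟨j, rfl⟩ : ∃ j, i = j + 1 := ⟨i - 1, by omega⟩
    have hlen2 : ((H.neighborFinset v).toList ++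
        (univ \ (insert v (H.neighborFinset v))).toList).length = 7 := by
      have := hlen
      simp only [L, List.length_cons] at this
      omega
    have h2 : L[j + 1]'(by omega) = ((H.neighborFinset v).toList ++
        (univ \ (insert v (H.neighborFinset v))).toList)[j]'(by omega) := by
      simp only [L, List.getElem_cons_succ]
    rw [h1, h2, hτ0, List.getElem_append_right (by omega)]
    have hlen3 : ((univ \ (insert v (H.neighborFinset v))).toList).length = 7 - D := by
      rw [List.length_append] at hlen2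
      omega
    have h3 := List.getElem_mem (l := (univ \ (insert v (H.neighborFinset v))).toList)
      (n := j - (H.neighborFinset v).toList.length) (by omega)
    simp only [mem_toList, mem_sdiff, mem_univ, true_and, mem_insert, not_or,
      SimpleGraph.mem_neighborFinset] at h3
    exact h3.2
  exact ⟨τ, hτinj, hτN, hτR⟩

theorem bit_T0 : ∀ D : ℕ, 4 ≤ D → D ≤ 7 → ∀ i, (T0 D).testBit i = true →
    1 ≤ i ∧ i ≤ D ∧ i < 8 := by
  intro D h1 h2 i hi
  have h3 : T0 D < 2 ^ 8 := by interval_cases D <;> decide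
  have h4 : i < 8 := by
    by_contra hcon
    rw [Nat.testBit_lt_two_pow (lt_of_lt_of_le h3 (Nat.pow_le_pow_right (by norm_num)
      (by omega)))] at hi
    exact absurd hi (by simp)
  revert hi
  interval_cases D <;> interval_cases i <;> decide

theorem bit_F0 : ∀ D : ℕ, 4 ≤ D → D ≤ 7 → ∀ i, (F0 D).testBit i = true →
    D < i ∧ i < 8 := by
  intro D h1 h2 i hi
  have h3 : F0 D < 2 ^ 8 := by interval_cases D <;> decide
  have h4 : i < 8 := by
    by_contra hcon
    rw [Nat.testBit_lt_two_pow (lt_of_lt_of_le h3 (Nat.pow_le_pow_right (by norm_num)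
      (by omega)))] at hi
    exact absurd hi (by simp)
  revert hi
  interval_cases D <;> interval_cases i <;> decide

open Finset in
theorem edges_le (H : SimpleGraph (Fin 8)) (f : H.edgeSet → H.edgeSet)
    (hf : ∀ e : H.edgeSet, Disj (e : Sym2 (Fin 8)) (f e))
    (hb : Blocking (SimpleGraph.pathGraph 3) H f) : H.edgeSet.ncard ≤ 13 := by
  classical
  by_contra hcon
  push Not at hcon
  have hE : 14 ≤ H.edgeFinset.card := by
    have : H.edgeSet.ncard = H.edgeFinset.card := by
      rw [← SimpleGraph.coe_edgeFinset, Set.ncard_coe_finset]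
    omega
  -- the blocking property for paths
  have hpath : ∀ a b c : Fin 8, a ≠ c → ∀ (h1 : H.Adj a b) (h2 : H.Adj b c),
      c ∈ (f ⟨s(a, b), h1⟩ : Sym2 (Fin 8)) ∨ a ∈ (f ⟨s(b, c), h2⟩ : Sym2 (Fin 8)) := by
    intro a b c hac h1 h2
    let φ : SimpleGraph.Copy (SimpleGraph.pathGraph 3) H :=
      { toHom :=
          { toFun := ![a, b, c]
            map_rel' := by
              intro i j hij
              rw [SimpleGraph.pathGraph_adj] at hij
              fin_cases i <;> fin_cases j <;>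
                first
                | (exact absurd hij (by decide))
                | exact h1
                | exact h2
                | exact h1.symm
                | exact h2.symm }
        injective' := by
          intro i j hij
          fin_cases i <;> fin_cases j <;>
            first
            | rfl
            | exact absurd hij h1.ne
            | exact absurd hij h1.ne.symm
            | exact absurd hij h2.ne
            | exact absurd hij h2.ne.symm
            | exact absurd hij hac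
            | exact absurd hij hac.symm }
    have h3 := hb φ.toSubgraph ⟨φ.isoToSubgraph⟩
    unfold Exclusive at h3
    push Not at h3
    obtain ⟨e, he, v, hv1, hv2⟩ := h3
    have hv3 : v = a ∨ v = b ∨ v = c := by
      obtain ⟨i, -, rfl⟩ := hv2
      fin_cases i
      · exact Or.inl rfl
      · exact Or.inr (Or.inl rfl)
      · exact Or.inr (Or.inr rfl)
    obtain ⟨e, heH⟩ := e
    have he3 : e = s(a, b) ∨ e = s(b, c) := by
      simp only at he
      revert he
      refine Sym2.ind (fun x y he => ?_) e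
      rw [SimpleGraph.Subgraph.mem_edgeSet] at he
      obtain ⟨i, j, hij, rfl, rfl⟩ := he
      have hij' : (SimpleGraph.pathGraph 3).Adj i j := hij
      rw [SimpleGraph.pathGraph_adj] at hij'
      fin_cases i <;> fin_cases j <;>
        first
        | (exact absurd hij' (by decide))
        | exact Or.inl rfl
        | exact Or.inr rfl
        | exact Or.inl Sym2.eq_swap
        | exact Or.inr Sym2.eq_swap
    rcases he3 with rfl | rfl
    · left
      have := hf ⟨s(a, b), heH⟩
      rcases hv3 with rfl | rfl | rfl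
      · exact absurd hv1 (this _ (Sym2.mem_mk_left _ _))
      · exact absurd hv1 (this _ (Sym2.mem_mk_right _ _))
      · exact hv1
    · right
      have := hf ⟨s(b, c), heH⟩
      rcases hv3 with rfl | rfl | rfl
      · exact hv1
      · exact absurd hv1 (this _ (Sym2.mem_mk_left _ _))
      · exact absurd hv1 (this _ (Sym2.mem_mk_right _ _))
  -- a vertex of maximum degree and an ordering of the vertices
  obtain ⟨v, hv⟩ := H.exists_maximal_degree_vertex
  set D := H.maxDegree with hD
  have hD4 : 4 ≤ D := by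
    by_contra hlt
    have h1 : ∑ u, H.degree u ≤ ∑ _u : Fin 8, 3 :=
      Finset.sum_le_sum fun u _ => (H.degree_le_maxDegree u).trans (by omega)
    rw [H.sum_degrees_eq_twice_card_edges] at h1
    simp only [Finset.sum_const, Finset.card_univ, Fintype.card_fin, smul_eq_mul] at h1
    omega
  have hD7 : D ≤ 7 := by
    have := H.degree_lt_card_verts v
    rw [Fintype.card_fin] at this
    omega
  obtain ⟨τ, hτinj, hτN, hτR⟩ := exists_order H v D hv hD7
  -- the map on all pairs
  let g : Sym2 (Fin 8) → Sym2 (Fin 8) := fun e => if h : e ∈ H.edgeSet then f ⟨e, h⟩ else e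
  have hg : ∀ a b (h : H.Adj a b), g s(a, b) = f ⟨s(a, b), h⟩ := by
    intro a b h
    exact dif_pos h
  let A : ℕ → ℕ → Prop := fun a b => H.Adj (τ a) (τ b)
  let B : ℕ → ℕ → ℕ → Prop := fun a b c => τ c ∈ g s(τ a, τ b)
  have hfacts : Facts A B D := by
    refine ⟨fun a b h => h.symm, fun a b c h => ?_, ?_, ?_, ?_, ?_, ?_⟩
    · change τ c ∈ g s(τ b, τ a)
      rw [Sym2.eq_swap]; exact h
    · intro a b c ha hb' hc hab hbc hac h1 h2
      have h3 := hpath (τ a) (τ b) (τ c) (fun h => hac (hτinj a c ha hc h)) h1 h2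
      rw [← hg _ _ h1, ← hg _ _ h2] at h3
      exact h3
    · intro a b c d e ha hb' hc hd he hab hcd hde hce h1 h2
      obtain ⟨p1, p2, p3⟩ := h2
      have q1 := fun h => hcd (hτinj c d hc hd h)
      have q2 := fun h => hde (hτinj d e hd he h)
      have q3 := fun h => hce (hτinj c e hc he h)
      change τ c ∈ g s(τ a, τ b) at p1
      change τ d ∈ g s(τ a, τ b) at p2
      change τ e ∈ g s(τ a, τ b) at p3
      revert p1 p2 p3
      refine Sym2.ind (fun x y => ?_) (g s(τ a, τ b))
      rw [Sym2.mem_iff, Sym2.mem_iff, Sym2.mem_iff]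
      intro p1 p2 p3
      rcases p1 with p1 | p1 <;> rcases p2 with p2 | p2 <;> rcases p3 with p3 | p3 <;>
        first
        | exact q1 (p1.trans p2.symm)
        | exact q2 (p2.trans p3.symm)
        | exact q3 (p1.trans p3.symm)
    · intro a b c d ha hb' hc hd hab hcd h1 p1 p2
      have q1 := fun h => hcd (hτinj c d hc hd h)
      change τ c ∈ g s(τ a, τ b) at p1
      change τ d ∈ g s(τ a, τ b) at p2
      have h2 : g s(τ a, τ b) ∈ H.edgeSet := by
        rw [hg _ _ h1]; exact (f _).2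
      rw [(Sym2.mem_and_mem_iff q1).mp ⟨p1, p2⟩] at h2
      exact h2
    · intro u hu M hM hM2
      have h1 : (M.map τ).Nodup := by
        refine (List.nodup_map_iff_inj_on hM).mpr fun x hx y hy hxy => ?_
        exact hτinj x y (hM2 x hx).1 (hM2 y hy).1 hxy
      have h2 : (M.map τ).toFinset ⊆ H.neighborFinset (τ u) := by
        intro x hx
        simp only [List.mem_toFinset, List.mem_map] at hx
        obtain ⟨t, ht, rfl⟩ := hx
        rw [SimpleGraph.mem_neighborFinset]
        exact (hM2 t ht).2.2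
      have h3 := Finset.card_le_card h2
      rw [List.toFinset_card_of_nodup h1, List.length_map,
        SimpleGraph.card_neighborFinset_eq_degree] at h3
      exact h3.trans (H.degree_le_maxDegree _)
    · intro M hM hM2
      let κ : ℕ → Sym2 (Fin 8) := fun q => s(τ (q / 8), τ (q % 8))
      have h1 : (M.map κ).Nodup := by
        refine (List.nodup_map_iff_inj_on hM).mpr fun x hx y hy hxy => ?_
        obtain ⟨x1, x2, x3⟩ := hM2 x hx
        obtain ⟨y1, y2, y3⟩ := hM2 y hy
        rcases Sym2.eq_iff.mp hxy with ⟨r1, r2⟩ | ⟨r1, r2⟩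
        · have s1 := hτinj _ _ (by omega) (by omega) r1
          have s2 := hτinj _ _ (by omega) (by omega) r2
          omega
        · have s1 := hτinj _ _ (by omega) (by omega) r1
          have s2 := hτinj _ _ (by omega) (by omega) r2
          omega
      have h2 : (M.map κ).toFinset ⊆ (⊤ : SimpleGraph (Fin 8)).edgeFinset \ H.edgeFinset := by
        intro x hx
        simp only [List.mem_toFinset, List.mem_map] at hx
        obtain ⟨q, hq, rfl⟩ := hx
        obtain ⟨x1, x2, x3⟩ := hM2 q hq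
        rw [mem_sdiff, SimpleGraph.mem_edgeFinset, SimpleGraph.mem_edgeFinset]
        refine ⟨?_, x3⟩
        change τ (q / 8) ≠ τ (q % 8)
        intro h
        have := hτinj _ _ (by omega) (by omega) h
        omega
      have h3 := Finset.card_le_card h2
      rw [List.toFinset_card_of_nodup h1, List.length_map,
        Finset.card_sdiff_of_subset (SimpleGraph.edgeFinset_subset_edgeFinset.mpr le_top),
        SimpleGraph.card_edgeFinset_top_eq_card_choose_two, Fintype.card_fin] at h3
      have h4 : (8 : ℕ).choose 2 = 28 := by decide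
      omega
  have hT : ∀ i, (T0 D).testBit i = true → VV A B i := by
    intro i hi
    have h1 : 1 ≤ i ∧ i ≤ D ∧ i < 8 := bit_T0 D hD4 hD7 i hi
    have h2 : VV A B i ↔ A (i / 8) (i % 8) := by rw [VV, if_pos (by omega)]
    rw [h2, show i / 8 = 0 by omega, show i % 8 = i by omega]
    exact hτN i h1.1 h1.2.1
  have hF : ∀ i, (F0 D).testBit i = true → ¬ VV A B i := by
    intro i hi
    have h1 : D < i ∧ i < 8 := bit_F0 D hD4 hD7 i hi
    have h2 : VV A B i ↔ A (i / 8) (i % 8) := by rw [VV, if_pos (by omega)]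
    rw [h2, show i / 8 = 0 by omega, show i % 8 = i by omega]
    exact hτR i h1.1 h1.2
  have hcompat : Compat A B (T0 D) (F0 D) := ⟨hT, hF⟩
  have key : ∀ n s, (run D n s (T0 D) (F0 D)).isSome = true → False := by
    intro n s hr
    obtain ⟨s', hs'⟩ := Option.isSome_iff_exists.mp hr
    exact run_sound hfacts n s _ _ s' hs' hcompat
  clear_value D
  interval_cases D
  · exact key _ _ cert4_ok
  · exact key _ _ cert5_ok
  · exact key _ _ cert6_ok
  · exact key _ _ cert7_ok

theorem s_le : s 8 (SimpleGraph.pathGraph 3) ≤ 13 := by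
  unfold s
  refine csSup_le' ?_
  rintro m ⟨H, f, hf, hb, rfl⟩
  exact edges_le H f hf hb

/-- For the path `P₃` with two edges, `s(8, P₃) ≤ 13 < 14 ≤ p(8, P₃)`; so the identity
`p(n, G) = s(n, G)` fails. -/
theorem result :
    (s 8 (SimpleGraph.pathGraph 3) ≤ 13 ∧ 14 ≤ p 8 (SimpleGraph.pathGraph 3)) ∧
    ¬ ∀ (k : ℕ) (G : SimpleGraph (Fin k)), G.edgeSet.Nonempty →
      ∀ n : ℕ, 4 ≤ n → p n G = s n G := by
  refine ⟨⟨s_le, p_ge⟩, fun h => ?_⟩
  have h1 := h 3 (SimpleGraph.pathGraph 3) ⟨s(0, 1), by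
    rw [SimpleGraph.mem_edgeSet, SimpleGraph.pathGraph_adj]; decide⟩ 8 (by norm_num)
  have h2 := s_le
  have h3 := p_ge
  omega

end Pool.Agent.Results.MP_f12eed_co.NotEqual
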